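import Mathlib

/-! # The complete graph on five vertices does not embed in the plane (van Kampen's parity count)

Written for MP_542b67_gt, Q2.  `H40K5.no_K5`: there are no ten arcs in `ℂ` joining five points in
pairs such that arcs without common end points are disjoint. -/

open Set Complex

namespace H40K5

/-- A continuous nonvanishing function on a simply connected, locally path connected space has a
continuous logarithm. -/
theorem exists_log {X : Type*} [TopologicalSpace X] [LocallyPathConnectedSpace X]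
    [SimplyConnectedSpace X] (g : X → ℂ) (hg : Continuous g) (h0 : ∀ x, g x ≠ 0) :
    ∃ f : X → ℂ, Continuous f ∧ ∀ x, exp (f x) = g x := by
  classical
  obtain ⟨x₀⟩ : Nonempty X := inferInstance
  obtain ⟨F, ⟨-, hF⟩, -⟩ := isCoveringMapOn_exp.existsUnique_continuousMap_lifts
    (⟨g, hg⟩ : C(X, ℂ)) (a₀ := x₀) (e₀ := log (g x₀)) (exp_log (h0 x₀)) (fun x => h0 x)
  exact ⟨F, F.continuous, fun x => congrFun hF x⟩

/-- Two continuous logarithms of the same function differ by a constant. -/
theorem log_sub_const {X : Type*} [TopologicalSpace X] [PreconnectedSpace X] (f g : X → ℂ)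
    (hf : Continuous f) (hg : Continuous g) (h : ∀ x, exp (f x) = exp (g x)) (x y : X) :
    f y - f x = g y - g x := by
  have key := isCoveringMap_exp.eq_of_comp_eq (g₁ := f) (g₂ := fun z => g z + (f x - g x)) hf
    (by fun_prop) (by
      funext z
      apply Subtype.ext
      change exp (f z) = exp (g z + (f x - g x))
      rw [exp_add, exp_sub, h x, div_self (exp_ne_zero _), mul_one, h z]) x (by ring)
  have := congrFun key y
  rw [this]; ring

/-- `t ↦ max 0 (min t 1)`. -/
noncomputable def clp (t : ℝ) : ℝ := max 0 (min t 1)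

theorem clp_cont : Continuous clp := by unfold clp; fun_prop

theorem clp_mem (t : ℝ) : clp t ∈ Icc (0 : ℝ) 1 := by
  unfold clp
  exact ⟨le_max_left _ _, max_le zero_le_one (min_le_right _ _)⟩

theorem clp_zero : clp 0 = 0 := by unfold clp; norm_num

theorem clp_one : clp 1 = 1 := by unfold clp; norm_num

/-- The square relation: for two disjoint arcs from `A` to `B` and from `C` to `D`. -/
theorem square (α β : ℝ → ℂ) (A B C D : ℂ) (hα : Continuous α) (hβ : Continuous β)
    (a0 : α 0 = A) (a1 : α 1 = B) (b0 : β 0 = C) (b1 : β 1 = D) (hd : ∀ s t, α s ≠ β t)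
    (La Lb Lc Ld : ℝ → ℂ) (ha : Continuous La) (hb : Continuous Lb) (hc : Continuous Lc)
    (hdd : Continuous Ld) (ea : ∀ t, exp (La t) = A - β t) (eb : ∀ t, exp (Lb t) = B - β t)
    (ec : ∀ t, exp (Lc t) = C - α t) (ed : ∀ t, exp (Ld t) = D - α t) :
    (La 1 - La 0) + (Ld 1 - Ld 0) = (Lc 1 - Lc 0) + (Lb 1 - Lb 0) := by
  obtain ⟨Θ, hΘ, eΘ⟩ := exists_log (X := ℝ × ℝ) (fun q => α q.1 - β q.2) (by fun_prop)
    (fun q => sub_ne_zero.mpr (hd _ _))
  have e1 : exp (Real.pi * I) = -1 := exp_pi_mul_I
  have r1 := log_sub_const (fun t : ℝ => Θ (0, t)) La (by fun_prop) ha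
    (fun t => by rw [eΘ, ea]; simp [a0]) 0 1
  have r2 := log_sub_const (fun t : ℝ => Θ (1, t)) Lb (by fun_prop) hb
    (fun t => by rw [eΘ, eb]; simp [a1]) 0 1
  have r3 := log_sub_const (fun s : ℝ => Θ (s, 0) + Real.pi * I) Lc (by fun_prop) hc
    (fun t => by rw [exp_add, eΘ, ec, e1]; simp [b0]) 0 1
  have r4 := log_sub_const (fun s : ℝ => Θ (s, 1) + Real.pi * I) Ld (by fun_prop) hdd
    (fun t => by rw [exp_add, eΘ, ed, e1]; simp [b1]) 0 1
  linear_combination -r1 - r4 + r2 + r3

/-- A logarithm of `p x - p y`, normalised so that the two orders differ by `π i`. -/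
noncomputable def ee (p : Fin 5 → ℂ) (x y : Fin 5) : ℂ :=
  if x < y then log (p x - p y) else log (p y - p x) + Real.pi * I

theorem exp_ee (p : Fin 5 → ℂ) (x y : Fin 5) (h : p x ≠ p y) : exp (ee p x y) = p x - p y := by
  unfold ee
  split_ifs
  · exact exp_log (sub_ne_zero.mpr h)
  · rw [exp_add, exp_log (sub_ne_zero.mpr h.symm), exp_pi_mul_I]; ring

theorem ee_swap (p : Fin 5 → ℂ) (x y : Fin 5) (h : x < y) :
    ee p y x = ee p x y + Real.pi * I := by
  unfold ee
  rw [if_pos h, if_neg (not_lt.mpr h.le)]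

/-- There are no ten arcs in the plane joining five points pairwise such that arcs without common
end points are disjoint. -/
theorem no_K5 (p : Fin 5 → ℂ) (γ : Fin 5 → Fin 5 → ℝ → ℂ)
    (hc : ∀ i j, i < j → ContinuousOn (γ i j) (Icc 0 1))
    (h0 : ∀ i j, i < j → γ i j 0 = p i) (h1 : ∀ i j, i < j → γ i j 1 = p j)
    (hd : ∀ i j k l, i < j → k < l → i ≠ k → i ≠ l → j ≠ k → j ≠ l →
      ∀ s ∈ Icc (0 : ℝ) 1, ∀ t ∈ Icc (0 : ℝ) 1, γ i j s ≠ γ k l t) : False := by
  classical
  -- clamped arcs
  set g : Fin 5 → Fin 5 → ℝ → ℂ := fun i j t => γ i j (clp t) with hg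
  have gc : ∀ i j, i < j → Continuous (g i j) := fun i j h =>
    (hc i j h).comp_continuous clp_cont clp_mem
  have g0 : ∀ i j, i < j → g i j 0 = p i := fun i j h => by simp [hg, clp_zero, h0 i j h]
  have g1 : ∀ i j, i < j → g i j 1 = p j := fun i j h => by simp [hg, clp_one, h1 i j h]
  have gd : ∀ i j k l, i < j → k < l → i ≠ k → i ≠ l → j ≠ k → j ≠ l → ∀ s t, g i j s ≠ g k l t :=
    fun i j k l a b c d e f s t => hd i j k l a b c d e f _ (clp_mem s) _ (clp_mem t)
  -- a vertex is off every edge not containing it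
  have vd : ∀ v k l, k < l → v ≠ k → v ≠ l → ∀ t, p v ≠ g k l t := by
    intro v k l hkl hvk hvl t
    obtain ⟨w, hw1, hw2, hw3⟩ : ∃ w : Fin 5, w ≠ v ∧ w ≠ k ∧ w ≠ l := by
      revert v k l; decide
    rcases lt_or_gt_of_ne hw1 with h | h
    · rw [← g1 w v h]; exact gd w v k l h hkl hw2 hw3 hvk hvl 1 t
    · rw [← g0 v w h]; exact gd v w k l h hkl hvk hvl hw2 hw3 0 t
  have pne : ∀ x y, x ≠ y → p x ≠ p y := by
    intro x y hxy
    obtain ⟨w, hw1, hw2⟩ : ∃ w : Fin 5, w ≠ x ∧ w ≠ y := by revert x y; decide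
    rcases lt_or_gt_of_ne hw2 with h | h
    · rw [← g1 w y h]; exact vd x w y h hw1.symm hxy 1
    · rw [← g0 y w h]; exact vd x y w h hxy hw1.symm 0
  -- logarithms
  have hL : ∀ v k l, ∃ L : ℝ → ℂ, k < l → v ≠ k → v ≠ l → Continuous L ∧
      ∀ t, exp (L t) = p v - g k l t := by
    intro v k l
    by_cases h : k < l ∧ v ≠ k ∧ v ≠ l
    · obtain ⟨L, h1, h2⟩ := exists_log (fun t : ℝ => p v - g k l t)
        (by have := gc k l h.1; fun_prop) (fun t => sub_ne_zero.mpr (vd v k l h.1 h.2.1 h.2.2 t))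
      exact ⟨L, fun _ _ _ => ⟨h1, h2⟩⟩
    · exact ⟨0, fun a b c => absurd ⟨a, b, c⟩ h⟩
  choose L hL using hL
  have hN : ∀ v k l, ∃ n : ℤ, k < l → v ≠ k → v ≠ l →
      L v k l 1 - L v k l 0 = ee p v l - ee p v k + n * (2 * Real.pi * I) := by
    intro v k l
    by_cases h : k < l ∧ v ≠ k ∧ v ≠ l
    · obtain ⟨a, b, c⟩ := h
      obtain ⟨n, hn⟩ := exp_eq_exp_iff_exists_int.mp
        (show exp (L v k l 1 - L v k l 0) = exp (ee p v l - ee p v k) by
          rw [exp_sub, exp_sub, (hL v k l a b c).2, (hL v k l a b c).2, g0 k l a, g1 k l a,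
            exp_ee p v l (pne _ _ c), exp_ee p v k (pne _ _ b)])
      exact ⟨n, fun _ _ _ => hn⟩
    · exact ⟨0, fun a b c => absurd ⟨a, b, c⟩ h⟩
  choose N hN using hN
  have hpi : (2 * Real.pi * I : ℂ) ≠ 0 := two_pi_I_ne_zero
  -- the square relations
  have sq : ∀ a b c d, a < b → c < d → a ≠ c → a ≠ d → b ≠ c → b ≠ d →
      (ee p a d - ee p a c + N a c d * (2 * Real.pi * I)) +
        (ee p d b - ee p d a + N d a b * (2 * Real.pi * I)) =
      (ee p c b - ee p c a + N c a b * (2 * Real.pi * I)) +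
        (ee p b d - ee p b c + N b c d * (2 * Real.pi * I)) := by
    intro a b c d hab hcd hac had hbc hbd
    have := square (g a b) (g c d) (p a) (p b) (p c) (p d) (gc _ _ hab) (gc _ _ hcd)
      (g0 _ _ hab) (g1 _ _ hab) (g0 _ _ hcd) (g1 _ _ hcd) (gd a b c d hab hcd hac had hbc hbd)
      (L a c d) (L b c d) (L c a b) (L d a b) (hL a c d hcd hac had).1 (hL b c d hcd hbc hbd).1
      (hL c a b hab hac.symm hbc.symm).1 (hL d a b hab had.symm hbd.symm).1
      (hL a c d hcd hac had).2 (hL b c d hcd hbc hbd).2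
      (hL c a b hab hac.symm hbc.symm).2 (hL d a b hab had.symm hbd.symm).2
    rwa [hN a c d hcd hac had, hN b c d hcd hbc hbd, hN c a b hab hac.symm hbc.symm,
      hN d a b hab had.symm hbd.symm] at this
  -- the three kinds of pairs on four points w < x < y < z
  have k1 : ∀ w x y z : Fin 5, w < x → x < y → y < z →
      N w y z + N z w x - N y w x - N x y z = 0 := by
    intro w x y z h1 h2 h3
    have e := sq w x y z h1 h3 (h1.trans h2).ne (h1.trans (h2.trans h3)).ne h2.ne (h2.trans h3).ne
    have s1 := ee_swap p w z (h1.trans (h2.trans h3))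
    have s2 := ee_swap p w y (h1.trans h2)
    have s3 := ee_swap p x z (h2.trans h3)
    have s4 := ee_swap p x y h2
    have : ((N w y z + N z w x - N y w x - N x y z : ℤ) : ℂ) * (2 * Real.pi * I) = 0 := by
      push_cast
      linear_combination e + s1 - s2 - s3 + s4
    have := (mul_eq_zero.mp this).resolve_right hpi
    exact_mod_cast this
  have k2 : ∀ w x y z : Fin 5, w < x → x < y → y < z →
      N w x z + N z w y - N x w y - N y x z = -1 := by
    intro w x y z h1 h2 h3
    have e := sq w y x z (h1.trans h2) (h2.trans h3) h1.ne (h1.trans (h2.trans h3)).ne h2.ne'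
      h3.ne
    have s1 := ee_swap p w z (h1.trans (h2.trans h3))
    have s2 := ee_swap p w x h1
    have s3 := ee_swap p y z h3
    have s4 := ee_swap p x y h2
    have : ((N w x z + N z w y - N x w y - N y x z + 1 : ℤ) : ℂ) * (2 * Real.pi * I) = 0 := by
      push_cast
      linear_combination e + s1 - s2 - s3 - s4
    have := (mul_eq_zero.mp this).resolve_right hpi
    have h : N w x z + N z w y - N x w y - N y x z + 1 = 0 := by exact_mod_cast this
    omega
  have k3 : ∀ w x y z : Fin 5, w < x → x < y → y < z →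
      N w x y + N y w z - N x w z - N z x y = 0 := by
    intro w x y z h1 h2 h3
    have e := sq w z x y (h1.trans (h2.trans h3)) h2 h1.ne (h1.trans h2).ne (h2.trans h3).ne' h3.ne'
    have s1 := ee_swap p w y (h1.trans h2)
    have s2 := ee_swap p w x h1
    have s3 := ee_swap p y z h3
    have s4 := ee_swap p x z (h2.trans h3)
    have : ((N w x y + N y w z - N x w z - N z x y : ℤ) : ℂ) * (2 * Real.pi * I) = 0 := by
      push_cast
      linear_combination e + s1 - s2 + s3 - s4
    have := (mul_eq_zero.mp this).resolve_right hpi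
    exact_mod_cast this
  have a1 := k1 0 1 2 3 (by decide) (by decide) (by decide)
  have a2 := k1 0 1 2 4 (by decide) (by decide) (by decide)
  have a3 := k1 0 1 3 4 (by decide) (by decide) (by decide)
  have a4 := k1 0 2 3 4 (by decide) (by decide) (by decide)
  have a5 := k1 1 2 3 4 (by decide) (by decide) (by decide)
  have b1 := k2 0 1 2 3 (by decide) (by decide) (by decide)
  have b2 := k2 0 1 2 4 (by decide) (by decide) (by decide)
  have b3 := k2 0 1 3 4 (by decide) (by decide) (by decide)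
  have b4 := k2 0 2 3 4 (by decide) (by decide) (by decide)
  have b5 := k2 1 2 3 4 (by decide) (by decide) (by decide)
  have c1 := k3 0 1 2 3 (by decide) (by decide) (by decide)
  have c2 := k3 0 1 2 4 (by decide) (by decide) (by decide)
  have c3 := k3 0 1 3 4 (by decide) (by decide) (by decide)
  have c4 := k3 0 2 3 4 (by decide) (by decide) (by decide)
  have c5 := k3 1 2 3 4 (by decide) (by decide) (by decide)
  omega

end H40K5
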